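import Mathlib
import Pool.Agent.N718.DC.Stm2

/-!
# Project DC (helper718), part ORTHO: lattice points in cones with interval sections
-/

set_option autoImplicit false

open Finset

namespace Pool.Agent.N322.DC

/-- the number of the multiples of `s` in an interval -/
theorem cnt {J : Set ℝ} (hJ : J.OrdConnected) (hne : J.Nonempty) (hb : BddBelow J)
    (ha : BddAbove J) {s : ℝ} (hs : 0 < s) (F : Finset ℤ)
    (hF : ∀ k : ℤ, k ∈ F ↔ s * (k : ℝ) ∈ J) :
    (sSup J - sInf J) / s - 1 ≤ (F.card : ℝ) ∧ (F.card : ℝ) ≤ (sSup J - sInf J) / s + 1 := by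
  have hab : sInf J ≤ sSup J := csInf_le_csSup hne hb ha
  set a := sInf J with ha'
  set b := sSup J with hb'
  constructor
  · have hsub : Finset.Icc (⌊a / s⌋ + 1) (⌈b / s⌉ - 1) ⊆ F := by
      intro k hk
      rw [Finset.mem_Icc] at hk
      rw [hF]
      have h1 : a / s < k := by
        have h1 := Int.lt_floor_add_one (a / s)
        have h2 : ((⌊a / s⌋ + 1 : ℤ) : ℝ) ≤ k := by exact_mod_cast hk.1
        push_cast at h2
        linarith
      have h2 : (k : ℝ) < b / s := by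
        have h1 := Int.ceil_lt_add_one (b / s)
        have h2 : (k : ℝ) ≤ ((⌈b / s⌉ - 1 : ℤ) : ℝ) := by exact_mod_cast hk.2
        push_cast at h2
        linarith
      have h3 : a < s * k := by
        rw [div_lt_iff₀ hs] at h1
        linarith
      have h4 : s * k < b := by
        rw [lt_div_iff₀ hs] at h2
        linarith
      obtain ⟨y, hy, hya⟩ := exists_lt_of_csInf_lt hne h3
      obtain ⟨z, hz, hzb⟩ := exists_lt_of_lt_csSup hne h4
      exact hJ.out hy hz ⟨hya.le, hzb.le⟩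
    have h1 := Finset.card_le_card hsub
    rw [Int.card_Icc] at h1
    have h2 : ((⌈b / s⌉ - 1 + 1 - (⌊a / s⌋ + 1) : ℤ) : ℝ) ≤ F.card := by
      have h3 := Int.self_le_toNat (⌈b / s⌉ - 1 + 1 - (⌊a / s⌋ + 1))
      have h4 : ((⌈b / s⌉ - 1 + 1 - (⌊a / s⌋ + 1)).toNat : ℤ) ≤ (F.card : ℤ) := by
        exact_mod_cast h1
      exact_mod_cast h3.trans h4
    push_cast at h2
    have h3 := Int.le_ceil (b / s)
    have h4 := Int.floor_le (a / s)
    rw [sub_div]
    linarith
  · have hsub : F ⊆ Finset.Icc ⌈a / s⌉ ⌊b / s⌋ := by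
      intro k hk
      rw [hF] at hk
      rw [Finset.mem_Icc, Int.ceil_le, Int.le_floor, div_le_iff₀ hs, le_div_iff₀ hs,
        mul_comm (k : ℝ)]
      exact ⟨csInf_le hb hk, le_csSup ha hk⟩
    have h1 := Finset.card_le_card hsub
    rw [Int.card_Icc] at h1
    have h2 : (F.card : ℝ) ≤ max ((⌊b / s⌋ : ℝ) + 1 - ⌈a / s⌉) 0 := by
      have h3 : (F.card : ℤ) ≤ max (⌊b / s⌋ + 1 - ⌈a / s⌉) 0 := by
        rw [← Int.ofNat_toNat]
        exact_mod_cast h1
      exact_mod_cast h3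
    have h3 := Int.floor_le (b / s)
    have h4 := Int.le_ceil (a / s)
    have h5 : 0 ≤ (b - a) / s := div_nonneg (sub_nonneg.2 hab) hs.le
    refine h2.trans (max_le ?_ (by linarith))
    rw [sub_div]
    linarith

open Classical in
/-- the estimate in dimension one -/
theorem one_dim {J : Set ℝ} (hJ : J.OrdConnected) {H₁ H : ℕ} (h1 : 1 ≤ H₁) (h2 : H₁ ≤ H) :
    |(((Finset.Icc (-(H : ℤ)) H).filter (fun k : ℤ => (k : ℝ) ∈ J)).card : ℝ) / (2 * H + 1) -
      (((Finset.Icc (-(H₁ : ℤ)) H₁).filter (fun k : ℤ => ((H : ℝ) / H₁) * (k : ℝ) ∈ J)).card : ℝ) /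
        (2 * H₁ + 1)| ≤ 2 / H₁ := by
  have hH1 : (1 : ℝ) ≤ H₁ := by exact_mod_cast h1
  have hHH : (H₁ : ℝ) ≤ H := by exact_mod_cast h2
  have hH10 : (0 : ℝ) < H₁ := by linarith
  have hH0 : (0 : ℝ) < H := by linarith
  set r : ℝ := (H : ℝ) / H₁ with hr
  have hr1 : 1 ≤ r := by rw [hr, le_div_iff₀ hH10]; linarith
  have hr0 : 0 < r := by linarith
  have hrH : r * H₁ = H := by rw [hr]; field_simp
  set F₁ := (Finset.Icc (-(H : ℤ)) H).filter (fun k : ℤ => (k : ℝ) ∈ J) with hF₁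
  set F₀ := (Finset.Icc (-(H₁ : ℤ)) H₁).filter (fun k : ℤ => r * (k : ℝ) ∈ J) with hF₀
  have hc0 : 0 ≤ 2 / (H₁ : ℝ) := by positivity
  by_cases hne : (J ∩ Set.Icc (-(H : ℝ)) H).Nonempty
  · have hJ' : (J ∩ Set.Icc (-(H : ℝ)) H).OrdConnected := hJ.inter Set.ordConnected_Icc
    have hbb : BddBelow (J ∩ Set.Icc (-(H : ℝ)) H) := ⟨-H, fun x hx => hx.2.1⟩
    have hba : BddAbove (J ∩ Set.Icc (-(H : ℝ)) H) := ⟨H, fun x hx => hx.2.2⟩
    have hc1 := cnt hJ' hne hbb hba one_pos F₁ (by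
      intro k
      rw [hF₁, Finset.mem_filter, Finset.mem_Icc, one_mul, Set.mem_inter_iff, Set.mem_Icc]
      have e1 : -(H : ℤ) ≤ k ↔ -(H : ℝ) ≤ k := by
        constructor
        · intro h; exact_mod_cast h
        · intro h; exact_mod_cast h
      have e2 : k ≤ (H : ℤ) ↔ (k : ℝ) ≤ H := by
        constructor
        · intro h; exact_mod_cast h
        · intro h; exact_mod_cast h
      rw [e1, e2]
      tauto)
    have hc2 := cnt hJ' hne hbb hba hr0 F₀ (by
      intro k
      rw [hF₀, Finset.mem_filter, Finset.mem_Icc, Set.mem_inter_iff, Set.mem_Icc]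
      have e1 : -(H₁ : ℤ) ≤ k ↔ -(H : ℝ) ≤ r * k := by
        rw [← hrH, ← mul_neg, mul_le_mul_iff_right₀ hr0]
        constructor
        · intro h; exact_mod_cast h
        · intro h; exact_mod_cast h
      have e2 : k ≤ (H₁ : ℤ) ↔ r * (k : ℝ) ≤ H := by
        rw [← hrH, mul_le_mul_iff_right₀ hr0]
        constructor
        · intro h; exact_mod_cast h
        · intro h; exact_mod_cast h
      rw [e1, e2]
      tauto)
    have hl0 : sInf (J ∩ Set.Icc (-(H : ℝ)) H) ≤ sSup (J ∩ Set.Icc (-(H : ℝ)) H) :=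
      csInf_le_csSup hne hbb hba
    have hl1 : -(H : ℝ) ≤ sInf (J ∩ Set.Icc (-(H : ℝ)) H) :=
      le_csInf hne fun x hx => hx.2.1
    have hl2 : sSup (J ∩ Set.Icc (-(H : ℝ)) H) ≤ H := csSup_le hne fun x hx => hx.2.2
    set l : ℝ := sSup (J ∩ Set.Icc (-(H : ℝ)) H) - sInf (J ∩ Set.Icc (-(H : ℝ)) H) with hl
    have hl3 : 0 ≤ l := by rw [hl]; linarith
    have hl4 : l ≤ 2 * H := by rw [hl]; linarith
    rw [div_one] at hc1
    set N₁ : ℝ := (F₁.card : ℝ) with hN₁
    set N₀ : ℝ := (F₀.card : ℝ) with hN₀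
    have hD1 : (0 : ℝ) < 2 * H + 1 := by positivity
    have hD0 : (0 : ℝ) < 2 * H₁ + 1 := by positivity
    -- the two main terms
    have hm : |l / (2 * H + 1) - l / r / (2 * H₁ + 1)| ≤ 1 / (2 * H₁) := by
      have e : l / (2 * H + 1) - l / r / (2 * H₁ + 1) =
          l / (2 * H + 1) * ((r - 1) / (2 * H + r)) := by
        have e1 : 2 * (H : ℝ) + r = r * (2 * H₁ + 1) := by rw [← hrH]; ring
        rw [e1]
        field_simp
        rw [← hrH]
        ring
      have h3 : 0 ≤ l / (2 * H + 1) := by positivity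
      have h4 : l / (2 * H + 1) ≤ 1 := by rw [div_le_one hD1]; linarith
      have h5 : 0 ≤ (r - 1) / (2 * H + r) := div_nonneg (by linarith) (by linarith)
      have h6 : (r - 1) / (2 * H + r) ≤ 1 / (2 * H₁) := by
        rw [div_le_div_iff₀ (by linarith) (by linarith)]
        nlinarith
      rw [e, abs_of_nonneg (mul_nonneg h3 h5)]
      calc l / (2 * H + 1) * ((r - 1) / (2 * H + r)) ≤ 1 * (1 / (2 * H₁)) :=
            mul_le_mul h4 h6 h5 zero_le_one
        _ = 1 / (2 * H₁) := one_mul _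
    have hd1 : |N₁ / (2 * H + 1) - l / (2 * H + 1)| ≤ 1 / (2 * H₁) := by
      rw [← sub_div, abs_div, abs_of_pos hD1, div_le_div_iff₀ hD1 (by linarith)]
      have h3 : |N₁ - l| ≤ 1 := abs_le.2 ⟨by linarith [hc1.1], by linarith [hc1.2]⟩
      nlinarith [abs_nonneg (N₁ - l)]
    have hd0 : |N₀ / (2 * H₁ + 1) - l / r / (2 * H₁ + 1)| ≤ 1 / (2 * H₁) := by
      rw [← sub_div, abs_div, abs_of_pos hD0, div_le_div_iff₀ hD0 (by linarith)]
      have h3 : |N₀ - l / r| ≤ 1 := abs_le.2 ⟨by linarith [hc2.1], by linarith [hc2.2]⟩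
      nlinarith [abs_nonneg (N₀ - l / r)]
    have hfin : 1 / (2 * (H₁ : ℝ)) + 1 / (2 * H₁) + 1 / (2 * H₁) ≤ 2 / H₁ := by
      have e : 1 / (2 * (H₁ : ℝ)) + 1 / (2 * H₁) + 1 / (2 * H₁) = (3 / 2) / H₁ := by
        field_simp
        norm_num
      rw [e]
      exact div_le_div_of_nonneg_right (by norm_num) hH10.le
    have e : N₁ / (2 * H + 1) - N₀ / (2 * H₁ + 1) =
        (N₁ / (2 * H + 1) - l / (2 * H + 1)) +
          (l / (2 * H + 1) - l / r / (2 * H₁ + 1)) -
          (N₀ / (2 * H₁ + 1) - l / r / (2 * H₁ + 1)) := by ring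
    rw [e]
    refine le_trans (abs_sub _ _) ?_
    refine le_trans (add_le_add (abs_add_le _ _) le_rfl) ?_
    linarith
  · have hz1 : F₁ = ∅ := by
      rw [hF₁, Finset.filter_eq_empty_iff]
      intro k hk hkJ
      rw [Finset.mem_Icc] at hk
      exact hne ⟨k, hkJ, by exact_mod_cast hk.1, by exact_mod_cast hk.2⟩
    have hz0 : F₀ = ∅ := by
      rw [hF₀, Finset.filter_eq_empty_iff]
      intro k hk hkJ
      rw [Finset.mem_Icc] at hk
      refine hne ⟨r * k, hkJ, ?_, ?_⟩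
      · rw [← hrH, ← mul_neg]
        refine mul_le_mul_of_nonneg_left ?_ hr0.le
        exact_mod_cast hk.1
      · rw [← hrH]
        refine mul_le_mul_of_nonneg_left ?_ hr0.le
        exact_mod_cast hk.2
    rw [hz1, hz0]
    simpa using hc0

/-- comparison of averages -/
theorem av {ι : Type} [Fintype ι] (hι : 0 < Fintype.card ι) (f g : ι → ℝ) {δ : ℝ}
    (h : ∀ i, |f i - g i| ≤ δ) :
    |(∑ i, f i) / Fintype.card ι - (∑ i, g i) / Fintype.card ι| ≤ δ := by
  have h0 : (0 : ℝ) < Fintype.card ι := by exact_mod_cast hι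
  rw [← sub_div, abs_div, abs_of_pos h0, div_le_iff₀ h0, ← Finset.sum_sub_distrib]
  refine (Finset.abs_sum_le_sum_abs _ _).trans ?_
  refine (Finset.sum_le_sum fun i _ => h i).trans ?_
  rw [Finset.sum_const, Finset.card_univ, nsmul_eq_mul, mul_comm]

open Classical in
/-- the hybrid argument -/
theorem hybrid {α β : Type} [Fintype α] [Fintype β] (φ : α → ℝ) (ψ : β → ℝ)
    (hα : 0 < Fintype.card α) (hβ : 0 < Fintype.card β) {δ : ℝ}
    (hδ : ∀ J : Set ℝ, J.OrdConnected →
      |(∑ a, if φ a ∈ J then (1 : ℝ) else 0) / Fintype.card α -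
        (∑ b, if ψ b ∈ J then (1 : ℝ) else 0) / Fintype.card β| ≤ δ) (n : ℕ) :
    ∀ S : Set (Fin n → ℝ),
    (∀ (c : Fin n → ℝ) (j : Fin n), {τ : ℝ | Function.update c j τ ∈ S}.OrdConnected) →
    |(∑ c : Fin n → α, if (fun i => φ (c i)) ∈ S then (1 : ℝ) else 0) /
        (Fintype.card α : ℝ) ^ n -
      (∑ c : Fin n → β, if (fun i => ψ (c i)) ∈ S then (1 : ℝ) else 0) /
        (Fintype.card β : ℝ) ^ n| ≤ n * δ := by
  have hα0 : (0 : ℝ) < Fintype.card α := by exact_mod_cast hα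
  have hβ0 : (0 : ℝ) < Fintype.card β := by exact_mod_cast hβ
  induction n with
  | zero =>
    intro S hS
    have e : ∀ x y : Fin 0 → ℝ, x = y := fun x y => Subsingleton.elim x y
    rw [Fintype.sum_unique, Fintype.sum_unique, pow_zero, pow_zero, div_one, div_one,
      e (fun i => φ ((default : Fin 0 → α) i)) (fun i => ψ ((default : Fin 0 → β) i)), sub_self]
    simp
  | succ n ih =>
    intro S hS
    -- the sections
    let Sx : ℝ → Set (Fin n → ℝ) := fun x => {c | (Fin.cons x c : Fin (n + 1) → ℝ) ∈ S}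
    have hSx : ∀ x, ∀ (c : Fin n → ℝ) (j : Fin n),
        {τ : ℝ | Function.update c j τ ∈ Sx x}.OrdConnected := by
      intro x c j
      have h := hS (Fin.cons x c) j.succ
      have e : {τ : ℝ | Function.update c j τ ∈ Sx x} =
          {τ : ℝ | Function.update (Fin.cons x c : Fin (n + 1) → ℝ) j.succ τ ∈ S} := by
        ext τ
        change (Fin.cons x (Function.update c j τ) : Fin (n + 1) → ℝ) ∈ S ↔
          Function.update (Fin.cons x c : Fin (n + 1) → ℝ) j.succ τ ∈ S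
        rw [Fin.cons_update]
      rw [e]
      exact h
    have hJ : ∀ c : Fin n → ℝ, {τ : ℝ | (Fin.cons τ c : Fin (n + 1) → ℝ) ∈ S}.OrdConnected := by
      intro c
      have h := hS (Fin.cons 0 c) 0
      have e : {τ : ℝ | (Fin.cons τ c : Fin (n + 1) → ℝ) ∈ S} =
          {τ : ℝ | Function.update (Fin.cons 0 c : Fin (n + 1) → ℝ) 0 τ ∈ S} := by
        ext τ
        change (Fin.cons τ c : Fin (n + 1) → ℝ) ∈ S ↔
          Function.update (Fin.cons 0 c : Fin (n + 1) → ℝ) 0 τ ∈ S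
        rw [Fin.update_cons_zero]
      rw [e]
      exact h
    -- the sums
    have hsum : ∀ {γ : Type} [Fintype γ] (χ : γ → ℝ),
        (∑ c : Fin (n + 1) → γ, if (fun i => χ (c i)) ∈ S then (1 : ℝ) else 0) =
        ∑ a : γ, ∑ c : Fin n → γ, if (fun i => χ (c i)) ∈ Sx (χ a) then (1 : ℝ) else 0 := by
      intro γ _ χ
      rw [← (Fin.consEquiv (fun _ : Fin (n + 1) => γ)).sum_comp, Fintype.sum_prod_type]
      refine Finset.sum_congr rfl fun a _ => Finset.sum_congr rfl fun c _ => ?_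
      have e : (fun i => χ ((Fin.consEquiv (fun _ : Fin (n + 1) => γ)) (a, c) i)) =
          (Fin.cons (χ a) (fun i => χ (c i)) : Fin (n + 1) → ℝ) := by
        funext i
        refine Fin.cases ?_ (fun i => ?_) i
        · simp [Fin.consEquiv]
        · simp [Fin.consEquiv]
      rw [e]
      rfl
    -- the intermediate average
    set mid : ℝ := (∑ a : α, (∑ c : Fin n → β,
      if (fun i => ψ (c i)) ∈ Sx (φ a) then (1 : ℝ) else 0) / (Fintype.card β : ℝ) ^ n) /
        Fintype.card α with hmid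
    have hfirst : |(∑ c : Fin (n + 1) → α, if (fun i => φ (c i)) ∈ S then (1 : ℝ) else 0) /
        (Fintype.card α : ℝ) ^ (n + 1) - mid| ≤ n * δ := by
      have e : (∑ c : Fin (n + 1) → α, if (fun i => φ (c i)) ∈ S then (1 : ℝ) else 0) /
          (Fintype.card α : ℝ) ^ (n + 1) = (∑ a : α, (∑ c : Fin n → α,
            if (fun i => φ (c i)) ∈ Sx (φ a) then (1 : ℝ) else 0) /
              (Fintype.card α : ℝ) ^ n) / Fintype.card α := by
        rw [hsum φ, ← Finset.sum_div, pow_succ, div_div]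
      rw [e, hmid]
      exact av hα _ _ fun a => ih (Sx (φ a)) (hSx (φ a))
    have hsecond : |mid - (∑ c : Fin (n + 1) → β,
        if (fun i => ψ (c i)) ∈ S then (1 : ℝ) else 0) / (Fintype.card β : ℝ) ^ (n + 1)| ≤ δ := by
      have hcard : Fintype.card (Fin n → β) = Fintype.card β ^ n := by
        rw [Fintype.card_fun, Fintype.card_fin]
      have e1 : mid = (∑ c : Fin n → β, (∑ a : α,
          if φ a ∈ {τ : ℝ | (Fin.cons τ (fun i => ψ (c i)) : Fin (n + 1) → ℝ) ∈ S}
            then (1 : ℝ) else 0) / Fintype.card α) / Fintype.card (Fin n → β) := by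
        rw [hmid, hcard, ← Finset.sum_div, ← Finset.sum_div, Finset.sum_comm]
        push_cast
        rw [div_div, div_div, mul_comm]
        rfl
      have e2 : (∑ c : Fin (n + 1) → β, if (fun i => ψ (c i)) ∈ S then (1 : ℝ) else 0) /
          (Fintype.card β : ℝ) ^ (n + 1) = (∑ c : Fin n → β, (∑ b : β,
          if ψ b ∈ {τ : ℝ | (Fin.cons τ (fun i => ψ (c i)) : Fin (n + 1) → ℝ) ∈ S}
            then (1 : ℝ) else 0) / Fintype.card β) / Fintype.card (Fin n → β) := by
        rw [hsum ψ, hcard, ← Finset.sum_div, Finset.sum_comm, pow_succ]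
        push_cast
        rw [div_div, mul_comm]
        rfl
      rw [e1, e2]
      refine av ?_ _ _ fun c => hδ _ (hJ _)
      rw [hcard]
      exact pow_pos hβ n
    have e : ∀ x y z : ℝ, x - z = (x - y) + (y - z) := fun x y z => by ring
    rw [e _ mid _]
    refine (abs_add_le _ _).trans ?_
    push_cast
    linarith

open Classical in
/-- the hybrid argument for arbitrary coordinates -/
theorem hybrid' {α β : Type} [Fintype α] [Fintype β] (φ : α → ℝ) (ψ : β → ℝ)
    (hα : 0 < Fintype.card α) (hβ : 0 < Fintype.card β) {δ : ℝ}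
    (hδ : ∀ J : Set ℝ, J.OrdConnected →
      |(∑ a, if φ a ∈ J then (1 : ℝ) else 0) / Fintype.card α -
        (∑ b, if ψ b ∈ J then (1 : ℝ) else 0) / Fintype.card β| ≤ δ)
    (κ : Type) [Fintype κ] [DecidableEq κ] (S : Set (κ → ℝ))
    (hS : ∀ (c : κ → ℝ) (j : κ), {τ : ℝ | Function.update c j τ ∈ S}.OrdConnected) :
    |(∑ c : κ → α, if (fun i => φ (c i)) ∈ S then (1 : ℝ) else 0) /
        (Fintype.card α : ℝ) ^ Fintype.card κ -
      (∑ c : κ → β, if (fun i => ψ (c i)) ∈ S then (1 : ℝ) else 0) /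
        (Fintype.card β : ℝ) ^ Fintype.card κ| ≤ Fintype.card κ * δ := by
  let e : κ ≃ Fin (Fintype.card κ) := Fintype.equivFin κ
  let S' : Set (Fin (Fintype.card κ) → ℝ) := {c | (fun j => c (e j)) ∈ S}
  have hS' : ∀ (c : Fin (Fintype.card κ) → ℝ) (j : Fin (Fintype.card κ)),
      {τ : ℝ | Function.update c j τ ∈ S'}.OrdConnected := by
    intro c j
    have h := hS (fun i => c (e i)) (e.symm j)
    have e' : {τ : ℝ | Function.update c j τ ∈ S'} =
        {τ : ℝ | Function.update (fun i => c (e i)) (e.symm j) τ ∈ S} := by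
      ext τ
      change (fun i => Function.update c j τ (e i)) ∈ S ↔
        Function.update (fun i => c (e i)) (e.symm j) τ ∈ S
      have h1 : (fun i => Function.update c j τ (e i)) =
          Function.update (fun i => c (e i)) (e.symm j) τ := by
        funext i
        by_cases hi : e i = j
        · have hi' : i = e.symm j := by rw [← hi, Equiv.symm_apply_apply]
          rw [hi, Function.update_self, hi', Function.update_self]
        · have hi' : i ≠ e.symm j := fun h => hi (by rw [h, Equiv.apply_symm_apply])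
          rw [Function.update_of_ne hi, Function.update_of_ne hi']
      rw [h1]
    rw [e']
    exact h
  have hsum : ∀ {γ : Type} [Fintype γ] (χ : γ → ℝ),
      (∑ c : κ → γ, if (fun i => χ (c i)) ∈ S then (1 : ℝ) else 0) =
      ∑ c : Fin (Fintype.card κ) → γ, if (fun i => χ (c i)) ∈ S' then (1 : ℝ) else 0 := by
    intro γ _ χ
    refine Fintype.sum_equiv (Equiv.arrowCongr e (Equiv.refl γ)) _ _ fun c => ?_
    have h1 : (fun i => χ (c i)) ∈ S ↔
        (fun i => χ ((Equiv.arrowCongr e (Equiv.refl γ)) c i)) ∈ S' := by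
      change (fun i => χ (c i)) ∈ S ↔
        (fun j => χ ((Equiv.arrowCongr e (Equiv.refl γ)) c (e j))) ∈ S
      simp [Equiv.arrowCongr]
    by_cases h2 : (fun i => χ (c i)) ∈ S
    · rw [if_pos h2, if_pos (h1.1 h2)]
    · rw [if_neg h2, if_neg fun h3 => h2 (h1.2 h3)]
  rw [hsum φ, hsum ψ]
  exact hybrid φ ψ hα hβ hδ _ S' hS'

open Classical in
/-- counting in boxes by functions to a subtype -/
theorem count_box (κ : Type) [Fintype κ] [DecidableEq κ] (X : Finset ℤ) (p : (κ → ℤ) → Prop) :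
    (((Fintype.piFinset (fun _ : κ => X)).filter p).card : ℝ) =
      ∑ c : κ → {x : ℤ // x ∈ X}, if p (fun i => (c i : ℤ)) then (1 : ℝ) else 0 := by
  rw [Finset.card_filter]
  push_cast
  symm
  refine Finset.sum_bij (fun c _ => fun i => ((c i : {x : ℤ // x ∈ X}) : ℤ)) ?_ ?_ ?_ ?_
  · intro c _
    rw [Fintype.mem_piFinset]
    exact fun i => (c i).2
  · intro c _ c' _ h
    funext i
    exact Subtype.ext (congrFun h i)
  · intro c hc
    rw [Fintype.mem_piFinset] at hc
    exact ⟨fun i => ⟨c i, hc i⟩, Finset.mem_univ _, rfl⟩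
  · intro c _
    rfl

open Classical in
theorem count_one (X : Finset ℤ) (p : ℤ → Prop) :
    ((X.filter p).card : ℝ) = ∑ c : {x : ℤ // x ∈ X}, if p (c : ℤ) then (1 : ℝ) else 0 := by
  rw [Finset.card_filter]
  push_cast
  rw [← Finset.sum_coe_sort X]

theorem ortho_ : Pool.Agent.N718.DC.S_ORTHO := by
  classical
  intro κ _ _
  refine ⟨Fintype.card κ * 2, by positivity, ?_⟩
  intro S hcone hS H₁ H h1 h2
  have hH10 : (0 : ℝ) < H₁ := by exact_mod_cast h1
  have hH0 : (0 : ℝ) < H := by exact_mod_cast (lt_of_lt_of_le h1 h2)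
  have hr0 : 0 < (H : ℝ) / H₁ := div_pos hH0 hH10
  have hcard : ∀ N : ℕ, Fintype.card {x : ℤ // x ∈ Finset.Icc (-(N : ℤ)) N} = 2 * N + 1 := by
    intro N
    rw [Fintype.card_coe, Int.card_Icc]
    omega
  have hδ : ∀ J : Set ℝ, J.OrdConnected →
      |(∑ a : {x : ℤ // x ∈ Finset.Icc (-(H : ℤ)) H}, if ((a : ℤ) : ℝ) ∈ J then (1 : ℝ) else 0) /
          Fintype.card {x : ℤ // x ∈ Finset.Icc (-(H : ℤ)) H} -
        (∑ b : {x : ℤ // x ∈ Finset.Icc (-(H₁ : ℤ)) H₁},
          if (H : ℝ) / H₁ * ((b : ℤ) : ℝ) ∈ J then (1 : ℝ) else 0) /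
          Fintype.card {x : ℤ // x ∈ Finset.Icc (-(H₁ : ℤ)) H₁}| ≤ 2 / H₁ := by
    intro J hJ
    have h3 := one_dim hJ h1 h2
    rw [count_one, count_one] at h3
    rw [hcard, hcard]
    push_cast
    convert h3 using 1
  have h3 := hybrid' (fun a : {x : ℤ // x ∈ Finset.Icc (-(H : ℤ)) H} => ((a : ℤ) : ℝ))
    (fun b : {x : ℤ // x ∈ Finset.Icc (-(H₁ : ℤ)) H₁} => (H : ℝ) / H₁ * ((b : ℤ) : ℝ))
    (by rw [hcard]; omega) (by rw [hcard]; omega) hδ κ S hS
  rw [hcard, hcard] at h3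
  rw [count_box, count_box]
  have h4 : ∀ c : κ → {x : ℤ // x ∈ Finset.Icc (-(H₁ : ℤ)) H₁},
      (fun i => (H : ℝ) / H₁ * ((c i : ℤ) : ℝ)) ∈ S ↔ (fun i => ((c i : ℤ) : ℝ)) ∈ S := by
    intro c
    constructor
    · intro h
      have h5 := hcone _ h ((H : ℝ) / H₁)⁻¹ (inv_pos.2 hr0)
      convert h5 using 1
      funext i
      rw [Pi.smul_apply, smul_eq_mul, ← mul_assoc, inv_mul_cancel₀ hr0.ne', one_mul]
    · intro h
      exact hcone _ h _ hr0
  simp only [h4] at h3
  rw [mul_div_assoc]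
  exact h3

end Pool.Agent.N322.DC
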